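import Pool.Agent.H315R2.EB.Stubs

/-!
# The clique automaton representation of right-angled Coxeter groups
-/

set_option linter.unusedSectionVars false

namespace Pool.Agent.H315R2.EB

open Polynomial

namespace RACaux

variable {B : Type} [Fintype B] [DecidableEq B] (M : CoxeterMatrix B)

/-- One step of the clique automaton. -/
def step (u : B) (D : Finset B) : Finset B := insert u (D.filter (fun v => M u v = 2))

/-- The automaton on words (read from the right). -/
def act : List B → Option (Finset B)
  | [] => some ∅
  | (u :: w) => match act w with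
    | none => none
    | some D => if u ∈ D then none else some (step M u D)

/-- The transition matrix of a letter. -/
noncomputable def N (u : B) : Matrix (Finset B) (Finset B) (Polynomial (ZMod 2)) :=
  fun E D => if u ∉ D ∧ E = step M u D then 1 else 0

/-- The image of a generator. -/
noncomputable def A (u : B) : Matrix (Finset B) (Finset B) (Polynomial (ZMod 2)) :=
  1 + (X : Polynomial (ZMod 2)) • N M u

theorem N_mul_N (u v : B) (E D : Finset B) :
    (N M u * N M v) E D = if v ∉ D ∧ u ∉ step M v D ∧ E = step M u (step M v D) then 1 else 0 := by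
  rw [Matrix.mul_apply, Finset.sum_eq_single (step M v D)]
  · unfold N
    by_cases h1 : v ∉ D
    · simp [h1]
    · simp [h1]
  · intro F _ hF
    unfold N
    rw [if_neg (c := v ∉ D ∧ F = step M v D) (fun h => hF h.2), mul_zero]
  · intro h
    exact absurd (Finset.mem_univ _) h

theorem N_sq (u : B) : N M u * N M u = 0 := by
  ext1 E D
  rw [N_mul_N, if_neg]
  · rfl
  · rintro ⟨_, h, _⟩
    exact h (Finset.mem_insert_self _ _)

theorem mem_step (u v : B) (D : Finset B) (h : M u v = 2) : u ∈ step M v D ↔ u ∈ D := by
  have huv : u ≠ v := by
    rintro rfl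
    rw [M.diagonal] at h
    exact absurd h (by norm_num)
  have h' : M v u = 2 := by rw [M.symmetric]; exact h
  unfold step
  rw [Finset.mem_insert, Finset.mem_filter]
  constructor
  · rintro (h1 | h1)
    · exact absurd h1 huv
    · exact h1.1
  · intro h1
    exact Or.inr ⟨h1, h'⟩

theorem step_comm (u v : B) (D : Finset B) (h : M u v = 2) :
    step M u (step M v D) = step M v (step M u D) := by
  have h' : M v u = 2 := by rw [M.symmetric]; exact h
  ext t
  unfold step
  simp only [Finset.mem_insert, Finset.mem_filter]
  by_cases h1 : t = u
  · subst h1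
    simp [h']
  · by_cases h2 : t = v
    · subst h2
      simp [h]
    · simp only [h1, h2, false_or]
      tauto

theorem N_comm (u v : B) (h : M u v = 2) : N M u * N M v = N M v * N M u := by
  have h' : M v u = 2 := by rw [M.symmetric]; exact h
  ext1 E D
  rw [N_mul_N, N_mul_N]
  have hiff : (v ∉ D ∧ u ∉ step M v D ∧ E = step M u (step M v D)) ↔
      (u ∉ D ∧ v ∉ step M u D ∧ E = step M v (step M u D)) := by
    rw [mem_step M u v D h, mem_step M v u D h', step_comm M u v D h]
    tauto
  exact if_congr hiff rfl rfl

theorem add_self (P : Matrix (Finset B) (Finset B) (Polynomial (ZMod 2))) : P + P = 0 := by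
  ext1 E D
  rw [Matrix.add_apply, CharTwo.add_self_eq_zero]
  rfl

theorem A_sq (u : B) : A M u * A M u = 1 := by
  unfold A
  simp only [mul_add, add_mul, mul_one, one_mul, Matrix.smul_mul, Matrix.mul_smul, N_sq,
    smul_zero, add_zero]
  rw [add_assoc, add_self, add_zero]

theorem A_comm (u v : B) (h : M u v = 2) : A M u * A M v = A M v * A M u := by
  unfold A
  simp only [mul_add, add_mul, mul_one, one_mul, Matrix.smul_mul, Matrix.mul_smul, N_comm M u v h]
  abel

/-- The image of a generator as a unit. -/
noncomputable def U (u : B) : (Matrix (Finset B) (Finset B) (Polynomial (ZMod 2)))ˣ :=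
  ⟨A M u, A M u, A_sq M u, A_sq M u⟩

theorem U_sq (u : B) : U M u * U M u = 1 := by
  apply Units.ext
  exact A_sq M u

theorem U_comm (u v : B) (h : M u v = 2) : U M u * U M v = U M v * U M u := by
  apply Units.ext
  exact A_comm M u v h

theorem liftable (hM : IsRightAngled M) : CoxeterMatrix.IsLiftable M (U M) := by
  intro i j
  by_cases hij : i = j
  · subst hij
    rw [M.diagonal, pow_one, U_sq]
  · rcases hM i j hij with h | h
    · rw [h, pow_two]
      calc U M i * U M j * (U M i * U M j) = U M i * (U M j * U M i) * U M j := by group
        _ = U M i * (U M i * U M j) * U M j := by rw [U_comm M i j h]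
        _ = (U M i * U M i) * (U M j * U M j) := by group
        _ = 1 := by rw [U_sq, U_sq, one_mul]
    · rw [h, pow_zero]

/-- The representation. -/
noncomputable def rho (hM : IsRightAngled M) :
    M.Group →* (Matrix (Finset B) (Finset B) (Polynomial (ZMod 2)))ˣ :=
  M.toCoxeterSystem.lift ⟨U M, liftable M hM⟩

theorem rho_simple (hM : IsRightAngled M) (u : B) :
    rho M hM (M.toCoxeterSystem.simple u) = U M u :=
  M.toCoxeterSystem.lift_apply_simple (liftable M hM) u

theorem act_cons (u : B) (w : List B) (D : Finset B) (h : act M w = some D) :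
    act M (u :: w) = if u ∈ D then none else some (step M u D) := by
  simp only [act, h]

theorem act_cons_none (u : B) (w : List B) (h : act M w = none) :
    act M (u :: w) = none := by
  simp only [act, h]

theorem coeff_rho (hM : IsRightAngled M) (w : List B) : ∀ E : Finset B,
    (∀ k, w.length < k → ((rho M hM (M.toCoxeterSystem.wordProd w)).1 E ∅).coeff k = 0) ∧
    ((rho M hM (M.toCoxeterSystem.wordProd w)).1 E ∅).coeff w.length =
      if act M w = some E then 1 else 0 := by
  induction w with
  | nil =>
    intro E
    rw [CoxeterSystem.wordProd_nil, map_one]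
    have h1 : (((1 : (Matrix (Finset B) (Finset B) (Polynomial (ZMod 2)))ˣ)).1 E ∅) =
        if E = ∅ then 1 else 0 := Matrix.one_apply
    rw [h1]
    constructor
    · intro k hk
      rw [List.length_nil] at hk
      split_ifs
      · rw [Polynomial.coeff_one, if_neg (by omega)]
      · rw [Polynomial.coeff_zero]
    · by_cases hE : E = ∅
      · subst hE
        simp [act]
      · rw [if_neg hE, Polynomial.coeff_zero, if_neg]
        intro h
        simp only [act, Option.some.injEq] at h
        exact hE h.symm
  | cons u w ih =>
    intro E
    have hR : ((rho M hM (M.toCoxeterSystem.wordProd (u :: w))).1 E ∅) =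
        ((rho M hM (M.toCoxeterSystem.wordProd w)).1 E ∅) +
        X * ∑ F, (if u ∉ F ∧ E = step M u F then 1 else 0) *
          ((rho M hM (M.toCoxeterSystem.wordProd w)).1 F ∅) := by
      rw [CoxeterSystem.wordProd_cons, map_mul, rho_simple]
      have h1 : (U M u * rho M hM (M.toCoxeterSystem.wordProd w)).1 =
          A M u * (rho M hM (M.toCoxeterSystem.wordProd w)).1 := rfl
      rw [h1]
      unfold A
      rw [add_mul, one_mul, Matrix.smul_mul, Matrix.add_apply, Matrix.smul_apply,
        Matrix.mul_apply, smul_eq_mul]
      rfl
    have hc : ∀ k, ((rho M hM (M.toCoxeterSystem.wordProd (u :: w))).1 E ∅).coeff (k + 1) =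
        ((rho M hM (M.toCoxeterSystem.wordProd w)).1 E ∅).coeff (k + 1) +
        ∑ F, (if u ∉ F ∧ E = step M u F then
          ((rho M hM (M.toCoxeterSystem.wordProd w)).1 F ∅).coeff k else 0) := by
      intro k
      rw [hR, Polynomial.coeff_add, Polynomial.coeff_X_mul, Polynomial.finsetSum_coeff]
      congr 1
      refine Finset.sum_congr rfl fun F _ => ?_
      split_ifs
      · rw [one_mul]
      · rw [zero_mul, Polynomial.coeff_zero]
    constructor
    · intro k hk
      rw [List.length_cons] at hk
      obtain ⟨k, rfl⟩ : ∃ k', k = k' + 1 := ⟨k - 1, by omega⟩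
      rw [hc, (ih E).1 (k + 1) (by omega), zero_add]
      refine Finset.sum_eq_zero fun F _ => ?_
      rw [(ih F).1 k (by omega)]
      simp
    · rw [List.length_cons, hc, (ih E).1 _ (Nat.lt_succ_self _), zero_add]
      rcases hw : act M w with _ | D
      · rw [act_cons_none M u w hw, if_neg (by simp)]
        refine Finset.sum_eq_zero fun F _ => ?_
        rw [(ih F).2, hw]
        simp
      · rw [act_cons M u w D hw, Finset.sum_eq_single D]
        · rw [(ih D).2, hw, if_pos rfl]
          by_cases hu : u ∈ D
          · simp [hu]
          · simp only [hu, not_false_eq_true, true_and, if_false, Option.some.injEq]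
            by_cases hE : E = step M u D
            · rw [if_pos hE, if_pos hE.symm]
            · rw [if_neg hE, if_neg (fun h => hE h.symm)]
        · intro F _ hF
          rw [(ih F).2, hw]
          have : ¬ (some D = some F) := fun h => hF (Option.some.inj h).symm
          rw [if_neg this]
          simp
        · intro h
          exact absurd (Finset.mem_univ _) h

theorem simple_comm (u v : B) (h : M u v = 2) :
    M.toCoxeterSystem.simple u * M.toCoxeterSystem.simple v =
      M.toCoxeterSystem.simple v * M.toCoxeterSystem.simple u := by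
  have h1 := M.toCoxeterSystem.simple_mul_simple_pow u v
  rw [h, pow_two] at h1
  have h2 := eq_inv_of_mul_eq_one_left h1
  rw [mul_inv_rev, CoxeterSystem.inv_simple, CoxeterSystem.inv_simple] at h2
  exact h2

theorem act_mem (w : List B) : ∀ (D : Finset B) (v : B), act M w = some D → v ∈ D →
    ∃ w' : List B, w'.length + 1 = w.length ∧
      M.toCoxeterSystem.wordProd w = M.toCoxeterSystem.simple v * M.toCoxeterSystem.wordProd w' := by
  induction w with
  | nil =>
    intro D v h hv
    simp only [act, Option.some.injEq] at h
    subst h
    simp at hv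
  | cons u w ih =>
    intro D v h hv
    rcases hw : act M w with _ | D1
    · rw [act_cons_none M u w hw] at h
      simp at h
    · rw [act_cons M u w D1 hw] at h
      by_cases hu : u ∈ D1
      · rw [if_pos hu] at h
        simp at h
      · rw [if_neg hu] at h
        have h2 : step M u D1 = D := Option.some.inj h
        rw [← h2, step, Finset.mem_insert, Finset.mem_filter] at hv
        rcases hv with rfl | ⟨hv1, hv2⟩
        · exact ⟨w, rfl, M.toCoxeterSystem.wordProd_cons v w⟩
        · obtain ⟨w', hl, hp⟩ := ih D1 v hw hv1
          refine ⟨u :: w', ?_, ?_⟩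
          · rw [List.length_cons, List.length_cons, hl]
          · rw [CoxeterSystem.wordProd_cons, CoxeterSystem.wordProd_cons, hp, ← mul_assoc,
              simple_comm M u v hv2, mul_assoc]

theorem act_none (w : List B) (h : act M w = none) :
    ∃ w' : List B, w'.length < w.length ∧
      M.toCoxeterSystem.wordProd w = M.toCoxeterSystem.wordProd w' := by
  induction w with
  | nil => simp [act] at h
  | cons u w ih =>
    rcases hw : act M w with _ | D1
    · obtain ⟨w', hl, hp⟩ := ih hw
      refine ⟨u :: w', ?_, ?_⟩
      · rw [List.length_cons, List.length_cons]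
        omega
      · rw [CoxeterSystem.wordProd_cons, CoxeterSystem.wordProd_cons, hp]
    · rw [act_cons M u w D1 hw] at h
      by_cases hu : u ∈ D1
      · obtain ⟨w', hl, hp⟩ := act_mem M w D1 u hw hu
        refine ⟨w', ?_, ?_⟩
        · rw [List.length_cons]
          omega
        · rw [CoxeterSystem.wordProd_cons, hp, CoxeterSystem.simple_mul_simple_cancel_left]
      · rw [if_neg hu] at h
        simp at h

end RACaux

open RACaux in
theorem RAC_proof : St_RAC := by
  intro B _ _ M hM
  refine ⟨rho M hM, fun w hw => ?_⟩
  obtain ⟨ω, hl, hp⟩ := M.toCoxeterSystem.exists_isReduced w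
  have hne : ω.length ≠ 0 := by
    intro h0
    rw [List.length_eq_zero_iff] at h0
    subst h0
    rw [CoxeterSystem.wordProd_nil] at hp
    exact hw hp
  rcases hact : act M ω with _ | D
  · exfalso
    obtain ⟨w', hl', hp'⟩ := act_none M ω hact
    have h1 := M.toCoxeterSystem.length_wordProd_le w'
    rw [← hp', ← hp] at h1
    rw [CoxeterSystem.IsReduced, ← hp] at hl
    omega
  · refine ⟨D, ∅, ?_⟩
    have h1 := (coeff_rho M hM ω D).2
    rw [if_pos hact, ← hp] at h1
    have h2 : ((rho M hM w).1 D ∅).coeff ω.length ≠ 0 := by
      rw [h1]
      exact one_ne_zero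
    have h3 := Polynomial.le_natDegree_of_ne_zero h2
    omega

end Pool.Agent.H315R2.EB
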